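import Pool.Agent.Helper432.YU.Fin2

set_option autoImplicit false

namespace Pool.Agent.Results.MP_743d72_nt.CubicAllTau

open YU432

/-- `Π_+(P) = ∏_{i=1}^n max(1, |a_i|)` for an integer polynomial `P` of degree at most `n`. -/
noncomputable def PiPlus (n : ℕ) (P : Polynomial ℤ) : ℝ :=
  ∏ i ∈ Finset.Icc 1 n, max 1 |(P.coeff i : ℝ)|

/-- `K_n^+(τ)`: the real `ξ` for which `Π_+(P)^(2τ-1) |P(ξ)| < 1` has infinitely many solutions
`P ∈ ℤ[X]` of degree at most `n`. -/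
def KPlus (n : ℕ) (τ : ℝ) : Set ℝ :=
  {ξ | {P : Polynomial ℤ | P.natDegree ≤ n ∧
    (PiPlus n P)^(2*τ-1) * |Polynomial.aeval ξ P| < 1}.Infinite}

/-- `K_3^+(τ)` in terms of coefficients -/
theorem KPlus_sub (τ : ℝ) : KPlus 3 τ ⊆
    {x : ℝ | {P : (ℤ × ℤ × ℤ) × ℤ | (PiF P.1)^(2*τ-1) * |Fv P.1 x + P.2| < 1}.Infinite} := by
  intro ξ hξ
  refine Set.infinite_of_injOn_mapsTo
    (f := fun P : Polynomial ℤ => ((P.coeff 3, P.coeff 2, P.coeff 1), P.coeff 0)) ?_ ?_ hξ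
  · rintro P ⟨hP, -⟩ Q ⟨hQ, -⟩ h
    simp only [Prod.mk.injEq] at h
    obtain ⟨⟨h3, h2, h1⟩, h0⟩ := h
    ext n
    rcases lt_or_ge n 4 with hn | hn
    · interval_cases n
      · exact h0
      · exact h1
      · exact h2
      · exact h3
    · rw [Polynomial.coeff_eq_zero_of_natDegree_lt (by omega),
        Polynomial.coeff_eq_zero_of_natDegree_lt (by omega)]
  · rintro P ⟨hP, hlt⟩
    have h1 : PiPlus 3 P = PiF (P.coeff 3, P.coeff 2, P.coeff 1) := by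
      unfold PiPlus PiF
      have : Finset.Icc 1 3 = {1, 2, 3} := by decide
      rw [this]
      simp
      ring
    have h2 : Polynomial.aeval ξ P = Fv (P.coeff 3, P.coeff 2, P.coeff 1) ξ + (P.coeff 0 : ℝ) := by
      rw [Polynomial.aeval_eq_sum_range' (n := 4) (by omega)]
      unfold Fv
      simp [Finset.sum_range_succ, zsmul_eq_mul]
      ring
    show (PiF (P.coeff 3, P.coeff 2, P.coeff 1))^(2*τ-1) *
      |Fv (P.coeff 3, P.coeff 2, P.coeff 1) ξ + (P.coeff 0 : ℝ)| < 1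
    rw [← h1, ← h2]
    exact hlt

/-- Yu's question for `n = 3` and all `τ > 1`: `dim K_3^+(τ) ≤ 1/τ`. -/
theorem result (τ : ℝ) (hτ : 1 < τ) : dimH (KPlus 3 τ) ≤ ENNReal.ofReal (1/τ) :=
  (dimH_mono (KPlus_sub τ)).trans (final_all τ hτ)

end Pool.Agent.Results.MP_743d72_nt.CubicAllTau
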